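import Pool.Agent.Lib.TSq.Scale

/-!
# MP_1f2014_nt, Q2: three squares with `x + 3y + 5z` twice a square, for almost all `n`

For all `δ, ε > 0` and `N ≥ N₀(δ, ε)`, all but at most `εN` of the `n ≤ N` with `ord₂(n)` odd are
`x² + y² + z²` with `x + 3y + 5z = 2k²`, moreover with `0 ≤ k ≤ (log n)^(1+δ)`.
-/

namespace Pool.Agent.Results.MP_1f2014_nt.AlmostAllTwiceSquare

open Classical in
theorem result : ∀ δ : ℝ, 0 < δ → ∀ ε : ℝ, 0 < ε → ∃ N₀ : ℕ, ∀ N : ℕ, N₀ ≤ N →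
    (((Finset.Icc 1 N).filter (fun n : ℕ => Odd (padicValNat 2 n) ∧
      ¬ ∃ (x y z : ℤ) (k : ℕ), (k : ℝ) ≤ (Real.log n) ^ (1 + δ) ∧
          (n : ℤ) = x ^ 2 + y ^ 2 + z ^ 2 ∧ x + 3 * y + 5 * z = 2 * (k : ℤ) ^ 2)).card : ℝ) ≤
      ε * N := by
  intro δ hδ ε hε
  obtain ⟨N₀, h⟩ := Pool.Agent.Lib.TSq.almost_all hδ hε
  refine ⟨N₀, fun N hN => h N hN _ fun n hn => ?_⟩
  rw [Finset.mem_filter, Finset.mem_Icc] at hn
  exact ⟨hn.1.1, hn.1.2, hn.2.1, fun hg => hn.2.2 hg.2⟩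

end Pool.Agent.Results.MP_1f2014_nt.AlmostAllTwiceSquare
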