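import Pool.Agent.Lib.TS4.Fin

/-!
# MP_1f2014_nt, Q2: power saving for the exceptional set

For all `0 < κ ≤ 1/4` and `ε > 0`, all but `O(N^(1-κ+ε))` of the `n ≤ N` with `ord₂(n)` odd are
`x² + y² + z²` with `x + 3y + 5z = 2k²` and `0 ≤ k ≤ N^κ`. In particular Q2 fails for at most `O(N^(3/4+ε))` of the `n ≤ N`.
-/

namespace Pool.Agent.Results.MP_1f2014_nt.PowerSavingTwiceSquare

open Classical in
theorem result : ∀ κ : ℝ, 0 < κ → κ ≤ 1 / 4 → ∀ ε : ℝ, 0 < ε → ∃ C : ℝ, ∀ N : ℕ, 1 ≤ N →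
    (((Finset.Icc 1 N).filter (fun n : ℕ => Odd (padicValNat 2 n) ∧
      ¬ ∃ (x y z : ℤ) (k : ℕ), (k : ℝ) ≤ (N : ℝ) ^ κ ∧
          (n : ℤ) = x ^ 2 + y ^ 2 + z ^ 2 ∧ x + 3 * y + 5 * z = 2 * (k : ℤ) ^ 2)).card : ℝ) ≤
      C * (N : ℝ) ^ (1 - κ + ε) := by
  intro κ hκ hκ4 ε hε
  obtain ⟨C, -, hC⟩ := Pool.Agent.Lib.TS4.fin_all4 true κ ε hκ hκ4 hε
  refine ⟨C, fun N hN => le_trans ?_ (hC N hN)⟩
  norm_cast
  refine Finset.card_le_card fun n hn => ?_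
  rw [Finset.mem_filter] at hn ⊢
  refine ⟨hn.1, hn.2.1, fun hs => hn.2.2 ?_⟩
  obtain ⟨x, y, z, k, hk, h1, h2⟩ := hs
  refine ⟨x, y, z, k, hk, h1.symm, ?_⟩
  simpa using h2

end Pool.Agent.Results.MP_1f2014_nt.PowerSavingTwiceSquare
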